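import Pool.Agent.R957.Jel.Est

/-! # Adding one particle -/

open MeasureTheory Filter Topology Set

noncomputable section

namespace Pool.Agent.R957.Jel

variable {v : E3 → ℝ} {L : Set E3}

/-- `L¹` norm of `v` -/
def nv (v : E3 → ℝ) : ℝ := ∫ x, |v x|

theorem nv_nonneg (v : E3 → ℝ) : 0 ≤ nv v := integral_nonneg fun _ => abs_nonneg _

theorem setIntegral_v_le (hv : Integrable v) (y : E3) : ∫ x in L, v (x - y) ≤ nv v := by
  have h1 : Integrable (fun x => v (x - y)) := hv.comp_sub_right y
  calc ∫ x in L, v (x - y) ≤ ∫ x in L, |v (x - y)| :=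
        integral_mono h1.integrableOn h1.abs.integrableOn fun x => le_abs_self _
    _ ≤ ∫ x, |v (x - y)| := setIntegral_le_integral h1.abs (ae_of_all _ fun x => abs_nonneg _)
    _ = nv v := integral_sub_right_eq_self (fun x => |v x|) y

/-- Adding a particle. -/
theorem I_succ_ge (hv : Integrable v) (hev : ∀ x, v (-x) = v x)
    [IsFiniteMeasure (volume.restrict L)]
    (hLm : MeasurableSet L) (hLt : volume L ≠ ⊤) (hL0 : 0 < volume.real L)
    {beta b b' : ℝ} (hb : 0 < beta) {N : ℕ} (hst : Stab v L b (N + 1)) (hst' : Stab v L b' N) :
    Real.exp (-beta * (N * nv v / volume.real L)) * (volume.real L * I v beta L N)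
      ≤ I v beta L (N + 1) := by
  set V := volume.real L with hV
  set m := N * nv v / V with hm
  have hmp : MeasurePreserving
      (MeasurableEquiv.piFinSuccAbove (fun _ => E3) (0 : Fin (N + 1))) (pim L (N + 1))
      ((volume.restrict L).prod (pim L N)) :=
    measurePreserving_piFinSuccAbove (fun _ => volume.restrict L) 0
  set e := MeasurableEquiv.piFinSuccAbove (fun _ : Fin (N + 1) => E3) (0 : Fin (N + 1)) with he
  have hF := integrable_exp hv hLm hb hst
  have hF' := integrable_exp hv hLm hb hst'
  set f : E3 × (Fin N → E3) → ℝ := fun z => Real.exp (-beta * H v L (e.symm z)) with hf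
  have hfe : ∀ X, f (e X) = Real.exp (-beta * H v L X) := fun X => by simp [hf]
  have hint : Integrable f ((volume.restrict L).prod (pim L N)) := by
    refine (hmp.integrable_comp_emb e.measurableEmbedding).1 ?_
    refine hF.congr (ae_of_all _ fun X => (hfe X).symm)
  have h1 : I v beta L (N + 1) = ∫ Y, ∫ x, f (x, Y) ∂(volume.restrict L) ∂(pim L N) := by
    rw [← integral_prod_symm f hint, ← hmp.integral_comp' f]
    unfold I
    exact integral_congr_ae (ae_of_all _ fun X => (hfe X).symm)
  rw [h1]
  unfold I
  rw [← mul_assoc, ← integral_const_mul]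
  refine integral_mono_ae (hF'.const_mul _) hint.integral_prod_right ?_
  filter_upwards [ae_good hLm N, hint.prod_left_ae] with Y hY hYint
  -- the energy of the added particle
  set D : E3 → ℝ := fun x => (∑ k, (‖Y k - x‖⁻¹ + v (x - Y k))) - ((N + 1) / V) * phi L x
    - (1 / V) * (∑ k, phi L (Y k)) + 1 / 2 * (((N + 1) / V) ^ 2 - (N / V) ^ 2) * Bg L with hD
  have hHD : ∀ x, H v L (e.symm (x, Y)) = H v L Y + D x := by
    intro x
    have hX : ∀ k : Fin N, (e.symm (x, Y)) ((0 : Fin (N + 1)).succAbove k) = Y k := by
      intro k; simp [he]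
    have hX0 : (e.symm (x, Y)) 0 = x := by simp [he]
    rw [H_eq, pairSum_succAbove (cc v) (cc_symm hev) _ 0, H_eq, Fin.sum_univ_succAbove _ 0, hX0]
    simp only [hX, hD, ← hV, Finset.sum_add_distrib, cc]
    push_cast
    simp only [norm_sub_rev x]
    field_simp
    ring
  have hintD : IntegrableOn D L := by
    refine Integrable.add (Integrable.sub (Integrable.sub ?_ ?_) ?_) ?_
    · refine integrable_finsetSum _ fun k _ => Integrable.add ?_ ?_
      · exact integrableOn_inv_norm hLt (Y k)
      · exact (hv.comp_sub_right (Y k)).integrableOn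
    · exact (integrableOn_phi hLt hLt).const_mul _
    · exact integrable_const _
    · exact integrable_const _
  have hDint : ∫ x in L, D x ≤ N * nv v := by
    have e1 : ∫ x in L, D x = (∑ k, (phi L (Y k) + ∫ x in L, v (x - Y k)))
        - ((N + 1) / V) * Bg L - V * ((1 / V) * (∑ k, phi L (Y k)))
        + V * (1 / 2 * (((N + 1) / V) ^ 2 - (N / V) ^ 2) * Bg L) := by
      rw [hD]
      rw [integral_add, integral_sub, integral_sub, integral_finsetSum, integral_const_mul,
        setIntegral_const, setIntegral_const]
      · congr 1
        congr 1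
        congr 1
        refine Finset.sum_congr rfl fun k _ => ?_
        rw [integral_add]
        · rfl
        · exact integrableOn_inv_norm hLt (Y k)
        · exact (hv.comp_sub_right (Y k)).integrableOn
      · exact fun k _ => Integrable.add (integrableOn_inv_norm hLt (Y k))
          (hv.comp_sub_right (Y k)).integrableOn
      · refine integrable_finsetSum _ fun k _ => Integrable.add ?_ ?_
        · exact integrableOn_inv_norm hLt (Y k)
        · exact (hv.comp_sub_right (Y k)).integrableOn
      · exact (integrableOn_phi hLt hLt).const_mul _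
      · refine Integrable.sub ?_ ?_
        · refine integrable_finsetSum _ fun k _ => Integrable.add ?_ ?_
          · exact integrableOn_inv_norm hLt (Y k)
          · exact (hv.comp_sub_right (Y k)).integrableOn
        · exact (integrableOn_phi hLt hLt).const_mul _
      · exact integrable_const _
      · refine (Integrable.sub (Integrable.sub ?_ ?_) ?_)
        · refine integrable_finsetSum _ fun k _ => Integrable.add ?_ ?_
          · exact integrableOn_inv_norm hLt (Y k)
          · exact (hv.comp_sub_right (Y k)).integrableOn
        · exact (integrableOn_phi hLt hLt).const_mul _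
        · exact integrable_const _
      · exact integrable_const _
    have e2 : ∑ k, ∫ x in L, v (x - Y k) ≤ N * nv v := by
      calc ∑ k, ∫ x in L, v (x - Y k) ≤ ∑ _k : Fin N, nv v :=
            Finset.sum_le_sum fun k _ => setIntegral_v_le hv _
        _ = _ := by simp
    have e3 : 0 ≤ Bg L := Bg_nonneg L
    have e4 : ∫ x in L, D x = (∑ k, ∫ x in L, v (x - Y k)) - Bg L / (2 * V) := by
      rw [e1, Finset.sum_add_distrib]
      field_simp
      ring
    rw [e4]
    have : 0 ≤ Bg L / (2 * V) := by positivity
    linarith
  have hfx : ∀ x, f (x, Y) = Real.exp (-beta * H v L Y) * Real.exp (-beta * D x) := by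
    intro x
    simp only [hf]
    rw [hHD, mul_add, Real.exp_add]
  have hlow : ∀ x, Real.exp (-beta * H v L Y) * (Real.exp (-beta * m) * (1 - beta * (D x - m)))
      ≤ f (x, Y) := by
    intro x
    rw [hfx]
    refine mul_le_mul_of_nonneg_left ?_ (Real.exp_nonneg _)
    have h5 := Real.add_one_le_exp (-beta * (D x - m))
    have h6 : Real.exp (-beta * D x) = Real.exp (-beta * m) * Real.exp (-beta * (D x - m)) := by
      rw [← Real.exp_add]; congr 1; ring
    rw [h6]
    refine mul_le_mul_of_nonneg_left ?_ (Real.exp_nonneg _)
    linarith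
  have hlowint : IntegrableOn (fun x => Real.exp (-beta * H v L Y) *
      (Real.exp (-beta * m) * (1 - beta * (D x - m)))) L := by
    refine Integrable.const_mul (Integrable.const_mul ?_ _) _
    exact (integrable_const _).sub ((hintD.sub (integrable_const _)).const_mul _)
  have h7 := integral_mono hlowint hYint hlow
  refine le_trans ?_ h7
  rw [integral_const_mul, integral_const_mul, integral_sub, integral_const_mul, integral_sub,
    setIntegral_const, setIntegral_const]
  · simp only [smul_eq_mul]
    have hV0 : V ≠ 0 := hL0.ne'
    have h8 : 0 ≤ V * m - ∫ x in L, D x := by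
      rw [hm]; field_simp; linarith
    have h9 : V ≤ V * 1 - beta * ((∫ x in L, D x) - V * m) := by nlinarith
    calc Real.exp (-beta * m) * V * Real.exp (-beta * H v L Y)
        = Real.exp (-beta * H v L Y) * (Real.exp (-beta * m) * V) := by ring
      _ ≤ _ := mul_le_mul_of_nonneg_left
          (mul_le_mul_of_nonneg_left h9 (Real.exp_nonneg _)) (Real.exp_nonneg _)
  · exact hintD
  · exact integrable_const _
  · exact integrable_const _
  · exact (hintD.sub (integrable_const _)).const_mul _

end Pool.Agent.R957.Jel
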