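import Mathlib

/-! # Jellium with a short range pair potential: definitions -/

open MeasureTheory Filter Topology Set

noncomputable section

namespace Pool.Agent.R957.Jel

/-- Three dimensional Euclidean space. -/
abbrev E3 : Type := EuclideanSpace ℝ (Fin 3)

/-- Coulomb potential of the uniform unit background on `L`: `φ(x) = ∫_L |x - y|⁻¹ dy`. -/
def phi (L : Set E3) (x : E3) : ℝ := ∫ y in L, ‖x - y‖⁻¹

/-- Sum of a pair function over the pairs `i < j`. -/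
def pairSum (c : E3 → E3 → ℝ) {N : ℕ} (X : Fin N → E3) : ℝ :=
  ∑ i, ∑ j, if i < j then c (X i) (X j) else 0

/-- The jellium energy
`U_{ρ,Λ}(X) = ∑_{i<j} |x_i - x_j|⁻¹ - ρ ∑_i φ(x_i) + ½ ρ² ∫_Λ φ`. -/
def U (rho : ℝ) (L : Set E3) {N : ℕ} (X : Fin N → E3) : ℝ :=
  pairSum (fun x y => ‖x - y‖⁻¹) X - rho * ∑ i, phi L (X i) + 1 / 2 * rho ^ 2 * ∫ x in L, phi L x

/-- The total energy `U_{ρ,Λ}(X) + ∑_{i<j} v(x_i - x_j)`. -/
def energy (v : E3 → ℝ) (rho : ℝ) (L : Set E3) {N : ℕ} (X : Fin N → E3) : ℝ :=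
  U rho L X + pairSum (fun x y => v (x - y)) X

/-- The partition function of `N` particles in `Λ`,
`Z = (1/N!) ∫_{Λ^N} exp (-β [U_{ρ,Λ}(X) + ∑_{i<j} v(x_i - x_j)]) dX`. -/
def Z (v : E3 → ℝ) (beta rho : ℝ) (L : Set E3) (N : ℕ) : ℝ :=
  1 / (N.factorial : ℝ) *
    ∫ X in {X : Fin N → E3 | ∀ i, X i ∈ L}, Real.exp (-beta * energy v rho L X)

/-- The ball centred at `0` with volume `t` (for `t ≥ 0`). -/
def ballOfVol (t : ℝ) : Set E3 := Metric.ball 0 ((3 * t / (4 * Real.pi)) ^ (1 / 3 : ℝ))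

/-- `|Λ_j|⁻¹ ln Z(β, ρ; Λ_j)`, where `Λ_j` is the ball centred at `0` with `ρ |Λ_j| = j`. -/
def gfin (v : E3 → ℝ) (beta rho : ℝ) (j : ℕ) : ℝ :=
  (volume.real (ballOfVol (j / rho)))⁻¹ * Real.log (Z v beta rho (ballOfVol (j / rho)) j)

/-- The limit `g(β, ρ) = lim_j |Λ_j|⁻¹ ln Z(β, ρ; Λ_j)`. -/
def g (v : E3 → ℝ) (beta rho : ℝ) : ℝ := limUnder atTop (gfin v beta rho)

/-- Admissible short range pair potentials. -/
structure Admissible (v : E3 → ℝ) : Prop where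
  even : ∀ x, v (-x) = v x
  integrable : Integrable v
  tempered : ∃ r0 C eps : ℝ, 0 ≤ r0 ∧ 0 ≤ C ∧ 0 < eps ∧
    ∀ x, r0 < ‖x‖ → v x ≤ C * ‖x‖ ^ (-(3 + eps))
  stable : ∃ B : ℝ → ℝ,
    (∀ a b : ℝ, 0 < a → ∃ M : ℝ, ∀ rho ∈ Icc a b, |B rho| ≤ M) ∧
    ∀ rho > 0, ∀ L : Set E3, IsOpen L → IsConnected L → Bornology.IsBounded L →
      ∀ N : ℕ, rho * volume.real L = N → ∀ X : Fin N → E3, (∀ i, X i ∈ L) →
        Function.Injective X → -B rho * N ≤ energy v rho L X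
  limit : ∀ beta > 0, ∀ rho > 0, ∃ G : ℝ, Tendsto (gfin v beta rho) atTop (𝓝 G)

/-- Sanity check: `ballOfVol t` has volume `t`. -/
theorem volume_ballOfVol {t : ℝ} (ht : 0 ≤ t) : volume (ballOfVol t) = ENNReal.ofReal t := by
  unfold ballOfVol
  rw [EuclideanSpace.volume_ball_fin_three, ← ENNReal.ofReal_pow (by positivity),
    ← ENNReal.ofReal_mul (by positivity)]
  congr 1
  rw [← Real.rpow_natCast, ← Real.rpow_mul (by positivity)]
  norm_num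
  field_simp

theorem volume_real_ballOfVol {t : ℝ} (ht : 0 ≤ t) : volume.real (ballOfVol t) = t := by
  rw [Measure.real, volume_ballOfVol ht, ENNReal.toReal_ofReal ht]

end Pool.Agent.R957.Jel
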