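import Pool.Agent.R957.Jel.Phi

/-! # Adding and removing one particle -/

open MeasureTheory Filter Topology Set

noncomputable section

namespace Pool.Agent.R957.Jel

variable {v : E3 → ℝ} {L : Set E3}

/-- The full pair interaction. -/
def cc (v : E3 → ℝ) (x y : E3) : ℝ := ‖x - y‖⁻¹ + v (x - y)

theorem cc_symm (hv : ∀ x, v (-x) = v x) (x y : E3) : cc v x y = cc v y x := by
  unfold cc
  rw [norm_sub_rev, ← neg_sub y x, hv]

/-- Energy of `N` particles in `L` at the neutral density. -/
def H (v : E3 → ℝ) (L : Set E3) {N : ℕ} (X : Fin N → E3) : ℝ :=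
  energy v (N / volume.real L) L X

theorem H_eq (v : E3 → ℝ) (L : Set E3) {N : ℕ} (X : Fin N → E3) :
    H v L X = pairSum (cc v) X - (N / volume.real L) * ∑ i, phi L (X i)
      + 1 / 2 * (N / volume.real L) ^ 2 * Bg L := by
  unfold H energy U Bg
  have : pairSum (cc v) X = pairSum (fun x y => ‖x - y‖⁻¹) X + pairSum (fun x y => v (x - y)) X :=
    pairSum_add _ _ X
  rw [this]; ring

/-- product of the restricted Lebesgue measures -/
abbrev pim (L : Set E3) (N : ℕ) : Measure (Fin N → E3) := Measure.pi fun _ => volume.restrict L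

theorem pim_eq (L : Set E3) [SigmaFinite (volume.restrict L)] (N : ℕ) :
    pim L N = volume.restrict {X : Fin N → E3 | ∀ i, X i ∈ L} := by
  unfold pim
  rw [volume_pi, ← Measure.restrict_pi_pi (fun _ : Fin N => (volume : Measure E3)) (fun _ => L)]
  congr 1
  ext X; simp

/-- `N! Z` at the neutral density -/
def I (v : E3 → ℝ) (beta : ℝ) (L : Set E3) (N : ℕ) : ℝ :=
  ∫ X, Real.exp (-beta * H v L X) ∂(pim L N)

theorem pim_le [IsFiniteMeasure (volume.restrict L)] (N : ℕ) :
    pim L N ≤ (volume : Measure (Fin N → E3)) := by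
  rw [pim_eq]; exact Measure.restrict_le_self

theorem aesm_H (hv : Integrable v) [IsFiniteMeasure (volume.restrict L)] (N : ℕ) :
    AEStronglyMeasurable (fun X : Fin N → E3 => H v L X) (pim L N) := by
  refine AEStronglyMeasurable.mono_measure ?_ (pim_le N)
  simp only [H, energy, U]
  have hphi := measurable_phi L
  have h1 : AEStronglyMeasurable (fun X : Fin N → E3 =>
      pairSum (fun x y => ‖x - y‖⁻¹) X) volume := by
    unfold pairSum
    refine Finset.aestronglyMeasurable_fun_sum _ fun i _ =>
      Finset.aestronglyMeasurable_fun_sum _ fun j _ => ?_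
    split_ifs
    · exact (by fun_prop : Measurable fun X : Fin N → E3 => ‖X i - X j‖⁻¹).aestronglyMeasurable
    · exact aestronglyMeasurable_const
  have h2 : AEStronglyMeasurable (fun X : Fin N → E3 =>
      pairSum (fun x y => v (x - y)) X) volume := by
    unfold pairSum
    refine Finset.aestronglyMeasurable_fun_sum _ fun i _ =>
      Finset.aestronglyMeasurable_fun_sum _ fun j _ => ?_
    split_ifs with h
    · exact hv.aestronglyMeasurable.comp_quasiMeasurePreserving (quasi_sub h.ne)
    · exact aestronglyMeasurable_const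
  have h3 : AEStronglyMeasurable (fun X : Fin N → E3 => ∑ i, phi L (X i)) volume :=
    (by fun_prop : Measurable fun X : Fin N → E3 => ∑ i, phi L (X i)).aestronglyMeasurable
  exact ((h1.sub (h3.const_mul _)).add aestronglyMeasurable_const).add h2

/-- Stability on `L` for `N` particles with constant `b`. -/
def Stab (v : E3 → ℝ) (L : Set E3) (b : ℝ) (N : ℕ) : Prop :=
  ∀ X : Fin N → E3, (∀ i, X i ∈ L) → Function.Injective X → -b * N ≤ H v L X

theorem ae_good [IsFiniteMeasure (volume.restrict L)] (hLm : MeasurableSet L) (N : ℕ) :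
    ∀ᵐ X ∂(pim L N), (∀ i, X i ∈ L) ∧ Function.Injective X := by
  have h1 : ∀ᵐ X ∂(pim L N), Function.Injective X :=
    Measure.absolutelyContinuous_of_le (pim_le N) (ae_injective N)
  have h2 : ∀ᵐ X ∂(pim L N), ∀ i, X i ∈ L := by
    rw [pim_eq]
    have hms : MeasurableSet {X : Fin N → E3 | ∀ i, X i ∈ L} := by
      have : {X : Fin N → E3 | ∀ i, X i ∈ L} = ⋂ i, (fun X => X i) ⁻¹' L := by ext; simp
      rw [this]
      exact MeasurableSet.iInter fun i => (measurable_pi_apply i) hLm
    exact ae_restrict_mem hms
  filter_upwards [h1, h2] with X hX hX2 using ⟨hX2, hX⟩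

theorem integrable_exp (hv : Integrable v) [IsFiniteMeasure (volume.restrict L)]
    (hLm : MeasurableSet L) {beta b : ℝ} (hb : 0 < beta) {N : ℕ} (hst : Stab v L b N) :
    Integrable (fun X : Fin N → E3 => Real.exp (-beta * H v L X)) (pim L N) := by
  refine Integrable.mono' (integrable_const (Real.exp (beta * (b * N)))) ?_ ?_
  · exact Real.continuous_exp.comp_aestronglyMeasurable ((aesm_H hv N).const_mul _)
  · filter_upwards [ae_good hLm N] with X hX
    rw [Real.norm_of_nonneg (Real.exp_nonneg _)]
    apply Real.exp_le_exp.2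
    have := hst X hX.1 hX.2
    nlinarith

theorem I_pos (hv : Integrable v) [IsFiniteMeasure (volume.restrict L)]
    (hLm : MeasurableSet L) (hL0 : volume L ≠ 0)
    {beta b : ℝ} (hb : 0 < beta) {N : ℕ} (hst : Stab v L b N) :
    0 < I v beta L N := by
  unfold I
  have : NeZero (pim L N) := by
    refine ⟨?_⟩
    have hu : (pim L N) univ ≠ 0 := by
      rw [Measure.pi_univ]
      simp [hL0]
    intro h
    rw [h] at hu
    simp at hu
  exact integral_exp_pos (integrable_exp hv hLm hb hst)

/-- Removing a particle. -/
theorem I_succ_le (hv : Integrable v) (hev : ∀ x, v (-x) = v x)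
    [IsFiniteMeasure (volume.restrict L)]
    (hLm : MeasurableSet L) (hL0 : 0 < volume.real L)
    {beta b b' : ℝ} (hb : 0 < beta) {N : ℕ} (hst : Stab v L b (N + 1)) (hst' : Stab v L b' N) :
    I v beta L (N + 1) ≤ Real.exp (beta * (2 * b + Bg L / (2 * volume.real L ^ 2)))
      * (volume.real L * I v beta L N) := by
  set V := volume.real L with hV
  set C := 2 * b + Bg L / (2 * V ^ 2) with hC
  have hmp : ∀ i : Fin (N + 1), MeasurePreserving
      (MeasurableEquiv.piFinSuccAbove (fun _ => E3) i) (pim L (N + 1))
      ((volume.restrict L).prod (pim L N)) :=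
    fun i => measurePreserving_piFinSuccAbove (fun _ => volume.restrict L) i
  have hF := integrable_exp hv hLm hb hst'
  have h1 : ∀ i : Fin (N + 1),
      Integrable (fun X : Fin (N + 1) → E3 =>
        Real.exp (-beta * H v L (fun k => X (i.succAbove k)))) (pim L (N + 1)) ∧
      ∫ X : Fin (N + 1) → E3, Real.exp (-beta * H v L (fun k => X (i.succAbove k)))
        ∂(pim L (N + 1)) = V * I v beta L N := by
    intro i
    have h2 := (hmp i).integral_comp' (fun z : E3 × (Fin N → E3) =>
      Real.exp (-beta * H v L z.2))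
    have h3 : Integrable (fun z : E3 × (Fin N → E3) => Real.exp (-beta * H v L z.2))
      ((volume.restrict L).prod (pim L N)) := hF.comp_snd _
    refine ⟨?_, ?_⟩
    · exact ((hmp i).integrable_comp_emb (MeasurableEquiv.measurableEmbedding _)).2 h3
    · refine Eq.trans h2 ?_
      rw [integral_fun_snd (fun Y => Real.exp (-beta * H v L Y)), smul_eq_mul]
      unfold I
      rw [hV, measureReal_restrict_apply_univ]
  have h2 : ∫ X : Fin (N + 1) → E3, (∑ i : Fin (N + 1),
      Real.exp (-beta * H v L (fun k => X (i.succAbove k)))) ∂(pim L (N + 1))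
      = (N + 1) * (V * I v beta L N) := by
    rw [integral_finsetSum _ fun i _ => (h1 i).1, Finset.sum_congr rfl fun i _ => (h1 i).2]
    simp
  have h3 : (N + 1) * Real.exp (-beta * C) * I v beta L (N + 1)
      ≤ ∫ X : Fin (N + 1) → E3, (∑ i : Fin (N + 1),
      Real.exp (-beta * H v L (fun k => X (i.succAbove k)))) ∂(pim L (N + 1)) := by
    unfold I
    rw [← integral_const_mul]
    refine integral_mono_ae ((integrable_exp hv hLm hb hst).const_mul _)
      (integrable_finsetSum _ fun i _ => (h1 i).1) ?_
    filter_upwards [ae_good hLm (N + 1)] with X hX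
    have hs := hst X hX.1 hX.2
    set m := -beta * (H v L X + C) with hm
    have h4 : ∀ i : Fin (N + 1), Real.exp m * (1 + (-beta * H v L (fun k => X (i.succAbove k)) - m))
        ≤ Real.exp (-beta * H v L (fun k => X (i.succAbove k))) := by
      intro i
      have h5 := Real.add_one_le_exp (-beta * H v L (fun k => X (i.succAbove k)) - m)
      have h6 : Real.exp (-beta * H v L (fun k => X (i.succAbove k)))
          = Real.exp m * Real.exp (-beta * H v L (fun k => X (i.succAbove k)) - m) := by
        rw [← Real.exp_add]; congr 1; ring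
      rw [h6]
      refine mul_le_mul_of_nonneg_left ?_ (Real.exp_nonneg _)
      linarith
    have h5 := Finset.sum_le_sum fun i (_ : i ∈ (Finset.univ : Finset (Fin (N + 1)))) => h4 i
    refine le_trans ?_ h5
    rw [← Finset.mul_sum]
    have h6 : (N + 1 : ℝ) ≤ ∑ i : Fin (N + 1),
        (1 + (-beta * H v L (fun k => X (i.succAbove k)) - m)) := by
      have hsum : ∑ i : Fin (N + 1), H v L (fun k => X (i.succAbove k))
          = ((N : ℝ) + 1) * pairSum (cc v) X - 2 * pairSum (cc v) X
            - (N / V) * (N * ∑ i, phi L (X i))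
            + ((N : ℝ) + 1) * (1 / 2 * (N / V) ^ 2 * Bg L) := by
        have e1 : ∀ i : Fin (N + 1), H v L (fun k => X (i.succAbove k))
            = (pairSum (cc v) X - ∑ k, cc v (X i) (X (i.succAbove k)))
              - (N / V) * (∑ j, phi L (X j) - phi L (X i)) + 1 / 2 * (N / V) ^ 2 * Bg L := by
          intro i
          rw [H_eq, pairSum_succAbove (cc v) (cc_symm hev) X i, ← hV]
          have e2 : ∑ j, phi L (X j) = phi L (X i) + ∑ k, phi L (X (i.succAbove k)) :=
            Fin.sum_univ_succAbove _ i
          rw [e2]; ring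
        rw [Finset.sum_congr rfl fun i _ => e1 i]
        rw [Finset.sum_add_distrib, Finset.sum_sub_distrib, Finset.sum_sub_distrib,
          ← Finset.mul_sum, Finset.sum_sub_distrib, sum_sum_succAbove (cc v) (cc_symm hev) X]
        simp only [Finset.sum_const, Finset.card_univ, Fintype.card_fin, nsmul_eq_mul,
          Nat.cast_add, Nat.cast_one]
        ring
      have hsum2 : ∑ i : Fin (N + 1),
          (1 + (-beta * H v L (fun k => X (i.succAbove k)) - m))
          = (N + 1) + beta * ((N + 1) * (H v L X + C)
            - ∑ i : Fin (N + 1), H v L (fun k => X (i.succAbove k))) := by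
        rw [Finset.sum_add_distrib, Finset.sum_sub_distrib, ← Finset.mul_sum]
        simp [hm]
        ring
      rw [hsum2]
      have hkey : 0 ≤ (N + 1) * (H v L X + C)
            - ∑ i : Fin (N + 1), H v L (fun k => X (i.succAbove k)) := by
        rw [hsum]
        have hP : 0 ≤ ∑ i, phi L (X i) := Finset.sum_nonneg fun i _ => phi_nonneg _ _
        have hs2 := hs
        rw [H_eq, ← hV] at hs2 ⊢
        push_cast at hs2 ⊢
        set P := ∑ i, phi L (X i)
        set S := pairSum (cc v) X
        have hBg := Bg_nonneg L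
        have hid : ((N : ℝ) + 1) * (S - ((N : ℝ) + 1) / V * P
              + 1 / 2 * (((N : ℝ) + 1) / V) ^ 2 * Bg L + C)
            - (((N : ℝ) + 1) * S - 2 * S - (N / V) * (N * P)
              + ((N : ℝ) + 1) * (1 / 2 * (N / V) ^ 2 * Bg L))
            = 2 * (S - ((N : ℝ) + 1) / V * P + 1 / 2 * (((N : ℝ) + 1) / V) ^ 2 * Bg L
                + b * (N + 1)) + P / V := by
          rw [hC]
          field_simp
          ring
        rw [hid]
        have : 0 ≤ P / V := by positivity
        linarith
      have := mul_nonneg hb.le hkey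
      linarith
    calc (N + 1) * Real.exp (-beta * C) * Real.exp (-beta * H v L X)
        = Real.exp m * (N + 1) := by
          rw [hm, mul_assoc, ← Real.exp_add, mul_comm]
          congr 2; ring
      _ ≤ _ := mul_le_mul_of_nonneg_left h6 (Real.exp_nonneg _)
  rw [h2] at h3
  have hN : (0 : ℝ) < N + 1 := by positivity
  have h4 : Real.exp (-beta * C) * I v beta L (N + 1) ≤ V * I v beta L N := by
    have : ((N : ℝ) + 1) * (Real.exp (-beta * C) * I v beta L (N + 1))
      ≤ ((N : ℝ) + 1) * (V * I v beta L N) := by linarith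
    exact le_of_mul_le_mul_left this hN
  calc I v beta L (N + 1) = Real.exp (beta * C) * (Real.exp (-beta * C) * I v beta L (N + 1)) := by
        rw [← mul_assoc, ← Real.exp_add]; simp
    _ ≤ _ := mul_le_mul_of_nonneg_left h4 (Real.exp_nonneg _)

end Pool.Agent.R957.Jel
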