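import Pool.Agent.R957.Jel.Vol

/-! # Continuity of the free energy in the density -/

open MeasureTheory Filter Topology Set

noncomputable section

namespace Pool.Agent.R957.Jel

variable {v : E3 → ℝ}

theorem gfin_eq (v : E3 → ℝ) (beta : ℝ) {rho : ℝ} (hr : 0 < rho) {j : ℕ} (hj : 0 < j) :
    gfin v beta rho j = W v beta (j / rho) j / (j / rho) := by
  have hj' : (0 : ℝ) < j := by exact_mod_cast hj
  have hV : 0 < (j : ℝ) / rho := by positivity
  have hvol : volume.real (ballOfVol (j / rho)) = j / rho := volume_real_ballOfVol hV.le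
  have hLt := volume_ballOfVol_ne_top (j / rho)
  have hfin : IsFiniteMeasure (volume.restrict (ballOfVol (j / rho))) :=
    ⟨by simpa using hLt.lt_top⟩
  unfold gfin W Z I
  rw [hvol, pim_eq]
  have : ∀ X : Fin j → E3, H v (ballOfVol (j / rho)) X = energy v rho (ballOfVol (j / rho)) X := by
    intro X
    unfold H
    rw [hvol]
    congr 1
    field_simp
  simp only [this]
  rw [inv_mul_eq_div, one_div, inv_mul_eq_div]

/-- One sided Lipschitz bound. -/
theorem g_lower (hev : ∀ x, v (-x) = v x) (hv : Integrable v) {B : ℝ → ℝ}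
    (hB : ∀ rho > 0, ∀ L : Set E3, IsOpen L → IsConnected L → Bornology.IsBounded L →
      ∀ N : ℕ, rho * volume.real L = N → ∀ X : Fin N → E3, (∀ i, X i ∈ L) →
        Function.Injective X → -B rho * N ≤ energy v rho L X)
    {a b M : ℝ} (ha : 0 < a) (hab : a ≤ b) (hM : ∀ rho ∈ Icc a (b + 1), |B rho| ≤ M)
    {beta : ℝ} (hb : 0 < beta) {r1 r2 G1 G2 : ℝ} (h1 : r1 ∈ Icc a b) (h2 : r2 ∈ Icc a b)
    (hG1 : Tendsto (gfin v beta r1) atTop (𝓝 G1)) (hG2 : Tendsto (gfin v beta r2) atTop (𝓝 G2)) :
    G1 - (beta * (2 * M + (K 1 + 1) / 2 + (b + 1) * nv v) + |Real.log a| + |Real.log (b + 1)|)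
      * |r2 - r1| ≤ G2 := by
  set A := beta * (2 * M + (K 1 + 1) / 2 + (b + 1) * nv v) + |Real.log a| + |Real.log (b + 1)|
    with hA
  have hr1 : 0 < r1 := lt_of_lt_of_le ha h1.1
  have hr2 : 0 < r2 := lt_of_lt_of_le ha h2.1
  have hM0 : 0 ≤ M := (abs_nonneg _).trans (hM a ⟨le_rfl, by linarith⟩)
  have hA0 : 0 ≤ A := by
    have := nv_nonneg v
    have := K_nonneg 1
    have hb0 : 0 < b + 1 := by linarith
    rw [hA]; positivity
  -- the sequences
  set V : ℕ → ℝ := fun n => n / r1 with hVdef
  set n' : ℕ → ℕ := fun n => ⌈r2 * V n⌉₊ with hn'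
  set V' : ℕ → ℝ := fun n => n' n / r2 with hV'def
  have hVtop : Tendsto V atTop atTop := by
    exact Tendsto.atTop_div_const hr1 tendsto_natCast_atTop_atTop
  have hV0 : ∀ n, 0 ≤ V n := fun n => by positivity
  have hn'top : Tendsto n' atTop atTop :=
    (tendsto_nat_ceil_atTop).comp (hVtop.const_mul_atTop hr2)
  have hn1 : ∀ n, r2 * V n ≤ n' n := fun n => Nat.le_ceil _
  have hn2 : ∀ n, (n' n : ℝ) < r2 * V n + 1 := fun n =>
    Nat.ceil_lt_add_one (mul_nonneg hr2.le (hV0 n))
  have hVV' : ∀ n, V n ≤ V' n := fun n => by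
    rw [hV'def]; simp only
    rw [le_div_iff₀ hr2, mul_comm]; exact hn1 n
  have hVV'2 : ∀ n, V' n ≤ V n + 1 / r2 := fun n => by
    rw [hV'def]; simp only
    rw [div_le_iff₀ hr2, add_mul, one_div, inv_mul_cancel₀ hr2.ne', mul_comm (V n)]
    exact (hn2 n).le
  -- ratio
  have hratio : Tendsto (fun n => V' n / V n) atTop (𝓝 1) := by
    have e1 : Tendsto (fun n => 1 + (1 / r2) / V n) atTop (𝓝 (1 + 0)) :=
      tendsto_const_nhds.add (tendsto_const_nhds.div_atTop hVtop)
    rw [add_zero] at e1
    refine tendsto_of_tendsto_of_tendsto_of_le_of_le' tendsto_const_nhds e1 ?_ ?_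
    · filter_upwards [hVtop.eventually_gt_atTop 0] with n hn
      rw [le_div_iff₀ hn, one_mul]; exact hVV' n
    · filter_upwards [hVtop.eventually_gt_atTop 0] with n hn
      rw [div_le_iff₀ hn, add_mul, div_mul_cancel₀ _ hn.ne', one_mul]
      exact hVV'2 n
  -- the basic inequality, for every `r > 0`
  have hmain : ∀ r : ℝ, 0 < r → G1 - A * |r2 - r1| - beta * (2 * b + 1) / r ≤ G2 := by
    intro r hr
    have hL : Tendsto (fun n : ℕ => gfin v beta r1 n - A * (|r2 - r1| + 1 / V n)
        - beta * (2 * b + 1) * ((K r + 1 / r2 / r) / V n + 1 / r)) atTop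
        (𝓝 (G1 - A * (|r2 - r1| + 0) - beta * (2 * b + 1) * (0 + 1 / r))) := by
      refine Tendsto.sub (Tendsto.sub hG1 (Tendsto.const_mul _ (Tendsto.add
        tendsto_const_nhds (tendsto_const_nhds.div_atTop hVtop)))) (Tendsto.const_mul _ ?_)
      exact (tendsto_const_nhds.div_atTop hVtop).add tendsto_const_nhds
    have hR : Tendsto (fun n : ℕ => (V' n / V n) * gfin v beta r2 (n' n)) atTop (𝓝 (1 * G2)) :=
      hratio.mul (hG2.comp hn'top)
    have hle := le_of_tendsto_of_tendsto hL hR ?_
    · have e1 : G1 - A * (|r2 - r1| + 0) - beta * (2 * b + 1) * (0 + 1 / r)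
          = G1 - A * |r2 - r1| - beta * (2 * b + 1) / r := by ring
      rw [e1, one_mul] at hle
      exact hle
    · filter_upwards [hVtop.eventually_ge_atTop 1, eventually_gt_atTop 0,
        hn'top.eventually_gt_atTop 0] with n hVn hn hn'0
      have hVpos : 0 < V n := by linarith
      have hV'pos : 0 < V' n := lt_of_lt_of_le hVpos (hVV' n)
      have hnV : (n : ℝ) / V n = r1 := by
        rw [hVdef]; simp only
        have : (n : ℝ) ≠ 0 := by exact_mod_cast hn.ne'
        field_simp
      have hn'V' : (n' n : ℝ) / V' n = r2 := by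
        rw [hV'def]; simp only
        have : (n' n : ℝ) ≠ 0 := by exact_mod_cast hn'0.ne'
        field_simp
      have hn'V1 : r2 ≤ (n' n : ℝ) / V n := by
        rw [le_div_iff₀ hVpos]; exact hn1 n
      have hn'V2 : (n' n : ℝ) / V n ≤ r2 + 1 / V n := by
        rw [div_le_iff₀ hVpos, add_mul, div_mul_cancel₀ _ hVpos.ne']; exact (hn2 n).le
      have hinv1 : 1 / V n ≤ 1 := by rw [div_le_one hVpos]; exact hVn
      -- stability
      have hst1 : Stab v (ballOfVol (V n)) M (n' n) := by
        refine stab_of hB hVpos hn'0 (hM _ ⟨h2.1.trans hn'V1, ?_⟩)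
        linarith [h2.2]
      have hst2 : Stab v (ballOfVol (V' n)) M (n' n) := by
        refine stab_of hB hV'pos hn'0 (hM _ ?_)
        rw [hn'V']
        exact ⟨h2.1, by linarith [h2.2]⟩
      have hSb : ∀ x, phi (ballOfVol (V' n)) x ≤ K r + V' n / r := by
        intro x
        have := phi_le (volume_ballOfVol_ne_top (V' n)) hr x
        rwa [volume_real_ballOfVol hV'pos.le] at this
      have hvolchange := W_vol hv hVpos (hVV' n) hb hst1 hst2 hSb
      have hlip : |W v beta (V n) (n' n) - W v beta (V n) n| ≤ A * |(n' n : ℝ) - n| := by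
        rcases le_total n (n' n) with hc | hc
        · have := W_lip hev hv hB ha (by linarith : a ≤ b + 1) hM hb hVn (k := n) (l := n' n)
            (by rw [hnV]; exact h1.1) hc (by linarith [h2.2])
          have hc' : (n : ℝ) ≤ n' n := by exact_mod_cast hc
          rwa [abs_of_nonneg (by linarith : (0 : ℝ) ≤ (n' n : ℝ) - n)]
        · have := W_lip hev hv hB ha (by linarith : a ≤ b + 1) hM hb hVn (k := n' n) (l := n)
            (h2.1.trans hn'V1) hc (by rw [hnV]; linarith [h1.2])
          have hc' : (n' n : ℝ) ≤ n := by exact_mod_cast hc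
          rw [abs_sub_comm, abs_sub_comm (n' n : ℝ)]
          rwa [abs_of_nonneg (by linarith : (0 : ℝ) ≤ (n : ℝ) - n' n)]
      have hnn : |(n' n : ℝ) - n| ≤ |r2 - r1| * V n + 1 := by
        have e1 : (n : ℝ) = r1 * V n := by
          rw [← hnV]; field_simp
        have e2 : (n' n : ℝ) - n = (r2 - r1) * V n + (n' n - r2 * V n) := by rw [e1]; ring
        rw [e2]
        refine (abs_add_le _ _).trans ?_
        rw [abs_mul, abs_of_pos hVpos]
        have : |(n' n : ℝ) - r2 * V n| ≤ 1 := by
          rw [abs_le]; constructor <;> linarith [hn1 n, hn2 n]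
        linarith
      set S := K r + V' n / r with hS
      have hS0 : 0 ≤ S := by
        have := K_nonneg r
        rw [hS]; positivity
      -- the error term
      have herr : (n' n : ℝ) * (n' n / V n - n' n / V' n) * S
          + (n' n / V' n) ^ 2 * (V' n - V n) * S ≤ (2 * b + 1) * S := by
        rw [hn'V']
        have e1 : (n' n : ℝ) * (n' n / V n - r2) ≤ b + 1 := by
          have e2 : (n' n : ℝ) * (n' n / V n - r2) = ((n' n : ℝ) / V n) * (n' n - r2 * V n) := by
            field_simp
          rw [e2]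
          have e3 : (n' n : ℝ) - r2 * V n ≤ 1 := by linarith [hn2 n]
          have e4 : 0 ≤ (n' n : ℝ) / V n := by positivity
          calc ((n' n : ℝ) / V n) * (n' n - r2 * V n) ≤ ((n' n : ℝ) / V n) * 1 :=
                mul_le_mul_of_nonneg_left e3 e4
            _ ≤ b + 1 := by linarith [h2.2]
        have e5 : r2 ^ 2 * (V' n - V n) ≤ b := by
          have e6 : V' n - V n ≤ 1 / r2 := by linarith [hVV'2 n]
          calc r2 ^ 2 * (V' n - V n) ≤ r2 ^ 2 * (1 / r2) :=
                mul_le_mul_of_nonneg_left e6 (by positivity)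
            _ = r2 := by field_simp
            _ ≤ b := h2.2
        have := mul_le_mul_of_nonneg_right (add_le_add e1 e5) hS0
        linarith
      have hfinal : W v beta (V n) n - A * (|r2 - r1| * V n + 1) - beta * ((2 * b + 1) * S)
          ≤ W v beta (V' n) (n' n) := by
        have e1 := (abs_le.1 hlip).1
        have e2 := mul_le_mul_of_nonneg_left hnn hA0
        have e3 := mul_le_mul_of_nonneg_left herr hb.le
        linarith
      have hg1 : gfin v beta r1 n = W v beta (V n) n / V n := gfin_eq v beta hr1 hn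
      have hg2 : gfin v beta r2 (n' n) = W v beta (V' n) (n' n) / V' n :=
        gfin_eq v beta hr2 hn'0
      rw [hg1, hg2]
      have e7 : V' n / V n * (W v beta (V' n) (n' n) / V' n) = W v beta (V' n) (n' n) / V n := by
        field_simp
      rw [e7, le_div_iff₀ hVpos]
      have hSle : S ≤ (K r + 1 / r2 / r) + V n / r := by
        rw [hS]
        have : V' n / r ≤ (V n + 1 / r2) / r := by
          have := hVV'2 n
          gcongr
        rw [add_div] at this
        linarith
      have hb0 : 0 < 2 * b + 1 := by linarith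
      have e8 : beta * ((2 * b + 1) * S) ≤ beta * ((2 * b + 1) * ((K r + 1 / r2 / r) + V n / r)) :=
        mul_le_mul_of_nonneg_left (mul_le_mul_of_nonneg_left hSle hb0.le) hb.le
      have e9 : (W v beta (V n) n / V n - A * (|r2 - r1| + 1 / V n)
          - beta * (2 * b + 1) * ((K r + 1 / r2 / r) / V n + 1 / r)) * V n
          = W v beta (V n) n - A * (|r2 - r1| * V n + 1)
            - beta * ((2 * b + 1) * ((K r + 1 / r2 / r) + V n / r)) := by
        field_simp
      rw [e9]
      linarith
  have hlim : Tendsto (fun r : ℝ => G1 - A * |r2 - r1| - beta * (2 * b + 1) / r) atTop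
      (𝓝 (G1 - A * |r2 - r1| - 0)) :=
    tendsto_const_nhds.sub (tendsto_const_nhds.div_atTop tendsto_id)
  rw [sub_zero] at hlim
  refine le_of_tendsto hlim ?_
  filter_upwards [eventually_gt_atTop 0] with r hr using hmain r hr

/-- The free energy is locally Lipschitz, hence continuous in the density. -/
theorem g_lip (h : Admissible v) {beta : ℝ} (hb : 0 < beta) {a b : ℝ} (ha : 0 < a)
    (hab : a ≤ b) :
    ∃ A : ℝ, 0 ≤ A ∧ ∀ r1 ∈ Icc a b, ∀ r2 ∈ Icc a b,
      |g v beta r1 - g v beta r2| ≤ A * |r1 - r2| := by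
  obtain ⟨B, hBloc, hB⟩ := h.stable
  obtain ⟨M, hM⟩ := hBloc a (b + 1) ha
  have hg : ∀ r : ℝ, 0 < r → Tendsto (gfin v beta r) atTop (𝓝 (g v beta r)) := by
    intro r hr
    obtain ⟨G, hG⟩ := h.limit beta hb r hr
    exact tendsto_nhds_limUnder ⟨G, hG⟩
  refine ⟨beta * (2 * M + (K 1 + 1) / 2 + (b + 1) * nv v) + |Real.log a| + |Real.log (b + 1)|,
    ?_, ?_⟩
  · have hM0 : 0 ≤ M := (abs_nonneg _).trans (hM a ⟨le_rfl, by linarith⟩)
    have := nv_nonneg v
    have := K_nonneg 1
    have hb0 : 0 < b + 1 := by linarith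
    positivity
  · intro r1 h1 r2 h2
    have e1 := g_lower h.even h.integrable hB ha hab hM hb h1 h2
      (hg r1 (lt_of_lt_of_le ha h1.1)) (hg r2 (lt_of_lt_of_le ha h2.1))
    have e2 := g_lower h.even h.integrable hB ha hab hM hb h2 h1
      (hg r2 (lt_of_lt_of_le ha h2.1)) (hg r1 (lt_of_lt_of_le ha h1.1))
    rw [abs_sub_comm r2 r1] at e1
    rw [abs_le]
    constructor <;> linarith

theorem continuousOn_g (h : Admissible v) {beta : ℝ} (hb : 0 < beta) :
    ContinuousOn (fun rho => g v beta rho) (Ioi 0) := by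
  intro x hx
  have hx0 : 0 < x := hx
  obtain ⟨A, hA0, hA⟩ := g_lip h hb (a := x / 2) (b := 2 * x) (by linarith) (by linarith)
  refine ContinuousAt.continuousWithinAt ?_
  have hx' : x ∈ Icc (x / 2) (2 * x) := ⟨by linarith, by linarith⟩
  have hnhds : Icc (x / 2) (2 * x) ∈ 𝓝 x := Icc_mem_nhds (by linarith) (by linarith)
  rw [ContinuousAt, tendsto_iff_dist_tendsto_zero]
  have hz : Tendsto (fun y => A * |y - x|) (𝓝 x) (𝓝 0) := by
    have : Tendsto (fun y : ℝ => A * |y - x|) (𝓝 x) (𝓝 (A * |x - x|)) :=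
      ((continuous_const.mul ((continuous_id.sub continuous_const).abs)).tendsto x)
    simpa using this
  refine squeeze_zero' (Eventually.of_forall fun y => dist_nonneg) ?_ hz
  filter_upwards [hnhds] with y hy
  rw [Real.dist_eq]
  exact hA y hy x hx'

end Pool.Agent.R957.Jel
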