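import Pool.Agent.R957.Jel.Defs

/-! # Pair sums -/

open MeasureTheory Filter Topology Set

noncomputable section

namespace Pool.Agent.R957.Jel

variable {N : ℕ}

theorem pairSum_add (c d : E3 → E3 → ℝ) (X : Fin N → E3) :
    pairSum (fun x y => c x y + d x y) X = pairSum c X + pairSum d X := by
  unfold pairSum
  rw [← Finset.sum_add_distrib]
  refine Finset.sum_congr rfl fun i _ => ?_
  rw [← Finset.sum_add_distrib]
  refine Finset.sum_congr rfl fun j _ => ?_
  split_ifs <;> simp

theorem two_pairSum (c : E3 → E3 → ℝ) (hc : ∀ x y, c x y = c y x) (X : Fin N → E3) :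
    2 * pairSum c X = ∑ i, ∑ j, if i = j then 0 else c (X i) (X j) := by
  have h1 : pairSum c X = ∑ i, ∑ j, if j < i then c (X i) (X j) else 0 := by
    unfold pairSum
    rw [Finset.sum_comm]
    refine Finset.sum_congr rfl fun i _ => Finset.sum_congr rfl fun j _ => ?_
    rw [hc (X j) (X i)]
  calc 2 * pairSum c X = pairSum c X + pairSum c X := by ring
    _ = (∑ i, ∑ j, if i < j then c (X i) (X j) else 0)
        + ∑ i, ∑ j, if j < i then c (X i) (X j) else 0 := by
        nth_rewrite 2 [h1]; rfl
    _ = _ := by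
        rw [← Finset.sum_add_distrib]
        refine Finset.sum_congr rfl fun i _ => ?_
        rw [← Finset.sum_add_distrib]
        refine Finset.sum_congr rfl fun j _ => ?_
        rcases lt_trichotomy i j with h | h | h
        · simp [h, h.ne, h.le]
        · simp [h]
        · simp [h, h.ne', h.le]

theorem pairSum_succAbove (c : E3 → E3 → ℝ) (hc : ∀ x y, c x y = c y x)
    (X : Fin (N + 1) → E3) (i : Fin (N + 1)) :
    pairSum c X = pairSum c (fun k => X (i.succAbove k)) + ∑ k, c (X i) (X (i.succAbove k)) := by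
  have h1 := two_pairSum c hc X
  have h2 := two_pairSum c hc (fun k => X (i.succAbove k))
  rw [Fin.sum_univ_succAbove _ i, Fin.sum_univ_succAbove _ i] at h1
  have h3 : ∀ k : Fin N, (∑ j, if i.succAbove k = j then 0 else c (X (i.succAbove k)) (X j))
      = c (X i) (X (i.succAbove k))
        + ∑ l, if k = l then 0 else c (X (i.succAbove k)) (X (i.succAbove l)) := by
    intro k
    rw [Fin.sum_univ_succAbove _ i, if_neg (Fin.succAbove_ne i k), hc (X i)]
    congr 1
    refine Finset.sum_congr rfl fun l _ => ?_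
    simp
  have h4 : ∀ k : Fin N, (if i = i.succAbove k then (0 : ℝ) else c (X i) (X (i.succAbove k)))
      = c (X i) (X (i.succAbove k)) := fun k => if_neg (Fin.succAbove_ne i k).symm
  simp only [h3, h4, Finset.sum_add_distrib, if_true, zero_add] at h1
  linarith

theorem sum_sum_succAbove (c : E3 → E3 → ℝ) (hc : ∀ x y, c x y = c y x)
    (X : Fin (N + 1) → E3) :
    ∑ i, ∑ k, c (X i) (X (i.succAbove k)) = 2 * pairSum c X := by
  rw [two_pairSum c hc X]
  refine Finset.sum_congr rfl fun i _ => ?_
  rw [Fin.sum_univ_succAbove _ i, if_pos rfl, zero_add]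
  refine Finset.sum_congr rfl fun k _ => ?_
  rw [if_neg (Fin.succAbove_ne i k).symm]

/-- Difference maps are quasi measure preserving. -/
theorem quasi_sub {N : ℕ} {i j : Fin N} (hij : i ≠ j) :
    Measure.QuasiMeasurePreserving (fun X : Fin N → E3 => X i - X j) volume volume := by
  refine ⟨by fun_prop, ?_⟩
  have hm : Measurable (fun X : Fin N → E3 => X i - X j) := by fun_prop
  let T : (Fin N → E3) →ₗ[ℝ] E3 := LinearMap.proj (R := ℝ) (φ := fun _ => E3) i - LinearMap.proj (R := ℝ) (φ := fun _ => E3) j
  have hT : Function.Surjective T := by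
    intro y
    refine ⟨Pi.single i y, ?_⟩
    simp [T, hij.symm]
  intro s hs
  obtain ⟨t, hst, ht, ht0⟩ := exists_measurable_superset_of_null hs
  have h1 : (∀ᵐ X ∂(volume : Measure (Fin N → E3)), T X ∈ tᶜ)
      ↔ ∀ᵐ y ∂(volume : Measure E3), y ∈ tᶜ :=
    ae_comp_linearMap_mem_iff T volume volume hT ht.compl
  have h2 : ∀ᵐ y ∂(volume : Measure E3), y ∈ tᶜ := by
    rw [ae_iff]; simpa using ht0
  have h3 := h1.2 h2
  rw [ae_iff] at h3
  refine measure_mono_null hst ?_
  rw [Measure.map_apply hm ht]
  convert h3 using 2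
  ext X
  simp [T]

/-- Almost every configuration is injective. -/
theorem ae_injective (N : ℕ) :
    ∀ᵐ X : Fin N → E3, Function.Injective X := by
  have h : ∀ i j : Fin N, i ≠ j → ∀ᵐ X : Fin N → E3, X i ≠ X j := by
    intro i j hij
    have h0 : ∀ᵐ y : E3, y ≠ 0 := by
      rw [ae_iff]; simp
    have := (quasi_sub hij).ae h0
    filter_upwards [this] with X hX h
    exact hX (by simp [h])
  have h2 : ∀ᵐ X : Fin N → E3, ∀ i j : Fin N, i ≠ j → X i ≠ X j := by
    rw [ae_all_iff]; intro i
    rw [ae_all_iff]; intro j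
    by_cases hij : i = j
    · simp [hij]
    · filter_upwards [h i j hij] with X hX _ using hX
  filter_upwards [h2] with X hX i j hij
  by_contra hne
  exact hX i j hne hij

end Pool.Agent.R957.Jel
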