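import Pool.Agent.R957.Jel.Pair

/-! # The background potential -/

open MeasureTheory Filter Topology Set

noncomputable section

namespace Pool.Agent.R957.Jel

/-- truncated Coulomb kernel -/
def ker (r : ℝ) (x : E3) : ℝ := (Metric.ball (0 : E3) r).indicator (fun x => ‖x‖⁻¹) x

theorem ker_nonneg (r : ℝ) (x : E3) : 0 ≤ ker r x := by
  unfold ker
  exact Set.indicator_nonneg (fun x _ => by positivity) x

theorem integrable_ker (r : ℝ) : Integrable (ker r) := by
  unfold ker
  rw [integrable_indicator_iff measurableSet_ball]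
  rw [integrableOn_fun_norm_addHaar (μ := (volume : Measure E3)) (f := fun y : ℝ => y⁻¹)]
  have h : IntegrableOn (fun y : ℝ => y) (Ioo 0 r) := by
    refine (Continuous.integrableOn_Icc continuous_id).mono_set Ioo_subset_Icc_self
  refine (integrableOn_congr_fun ?_ measurableSet_Ioo).2 h
  intro y hy
  have hy0 : y ≠ 0 := hy.1.ne'
  simp only [finrank_euclideanSpace, Fintype.card_fin, smul_eq_mul]
  field_simp

theorem inv_norm_le_ker {r : ℝ} (hr : 0 < r) (x : E3) : ‖x‖⁻¹ ≤ ker r x + 1 / r := by
  unfold ker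
  by_cases hx : x ∈ Metric.ball (0 : E3) r
  · rw [Set.indicator_of_mem hx]
    have : 0 < 1 / r := by positivity
    linarith
  · rw [Set.indicator_of_notMem hx]
    have h1 : r ≤ ‖x‖ := by simpa using hx
    rw [zero_add, one_div]
    exact inv_anti₀ hr h1

theorem integrableOn_inv_norm {L : Set E3} (hL : volume L ≠ ⊤) (x : E3) :
    IntegrableOn (fun y => ‖x - y‖⁻¹) L := by
  have h1 : IntegrableOn (fun y => ker 1 (x - y) + 1) L := by
    refine Integrable.add ?_ ?_
    · exact ((integrable_ker 1).comp_sub_left x).integrableOn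
    · exact integrableOn_const hL
  refine Integrable.mono' h1 ?_ ?_
  · exact (by fun_prop : Measurable fun y : E3 => ‖x - y‖⁻¹).aestronglyMeasurable
  · refine ae_of_all _ fun y => ?_
    rw [Real.norm_of_nonneg (by positivity)]
    have := inv_norm_le_ker one_pos (x - y)
    simpa using this

theorem phi_nonneg (L : Set E3) (x : E3) : 0 ≤ phi L x :=
  integral_nonneg fun _ => by positivity

/-- the constant in the bound for `phi` -/
def K (r : ℝ) : ℝ := ∫ y, ker r y

theorem K_nonneg (r : ℝ) : 0 ≤ K r := integral_nonneg fun y => ker_nonneg r y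

theorem phi_le {L : Set E3} (hL : volume L ≠ ⊤) {r : ℝ} (hr : 0 < r) (x : E3) :
    phi L x ≤ K r + volume.real L / r := by
  unfold phi K
  have hk : Integrable (fun y => ker r (x - y)) := (integrable_ker r).comp_sub_left x
  have hc : IntegrableOn (fun _ : E3 => 1 / r) L := integrableOn_const hL
  calc ∫ y in L, ‖x - y‖⁻¹ ≤ ∫ y in L, (ker r (x - y) + 1 / r) :=
        integral_mono (integrableOn_inv_norm hL x) (hk.integrableOn.add hc)
          fun y => inv_norm_le_ker hr (x - y)
    _ = (∫ y in L, ker r (x - y)) + ∫ y in L, 1 / r := integral_add hk.integrableOn hc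
    _ ≤ (∫ y, ker r (x - y)) + volume.real L / r := by
        refine add_le_add ?_ ?_
        · exact setIntegral_le_integral hk (ae_of_all _ fun y => ker_nonneg r _)
        · rw [setIntegral_const, smul_eq_mul]
          apply le_of_eq; ring
    _ = _ := by rw [integral_sub_left_eq_self (fun y => ker r y) volume x]

theorem measurable_phi (L : Set E3) [SFinite (volume.restrict L)] : Measurable (phi L) := by
  have h : StronglyMeasurable (fun p : E3 × E3 => ‖p.1 - p.2‖⁻¹) :=
    (by fun_prop : Measurable fun p : E3 × E3 => ‖p.1 - p.2‖⁻¹).stronglyMeasurable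
  exact (h.integral_prod_right (ν := volume.restrict L)).measurable

theorem integrableOn_phi {L M : Set E3} (hL : volume L ≠ ⊤) (hM : volume M ≠ ⊤) :
    IntegrableOn (phi L) M := by
  have h1 : IntegrableOn (fun _ : E3 => K 1 + volume.real L / 1) M := integrableOn_const hM
  refine Integrable.mono' h1 (measurable_phi L).aestronglyMeasurable ?_
  refine ae_of_all _ fun y => ?_
  rw [Real.norm_of_nonneg (phi_nonneg _ _)]
  exact phi_le hL one_pos y

/-- Self-energy of the background. -/
def Bg (L : Set E3) : ℝ := ∫ x in L, phi L x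

theorem Bg_nonneg (L : Set E3) : 0 ≤ Bg L := integral_nonneg fun x => phi_nonneg L x

theorem integral_phi_le {L M : Set E3} (hL : volume L ≠ ⊤) (hM : volume M ≠ ⊤) {r : ℝ}
    (hr : 0 < r) : ∫ x in M, phi L x ≤ (K r + volume.real L / r) * volume.real M := by
  calc ∫ x in M, phi L x ≤ ∫ x in M, (K r + volume.real L / r) :=
        integral_mono (integrableOn_phi hL hM) (integrableOn_const hM) fun x => phi_le hL hr x
    _ = _ := by rw [setIntegral_const, smul_eq_mul]; ring

theorem integral_phi_symm {L M : Set E3} (hL : volume L ≠ ⊤) (hM : volume M ≠ ⊤) :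
    ∫ x in M, phi L x = ∫ x in L, phi M x := by
  have : IsFiniteMeasure (volume.restrict L) := ⟨by simpa using hL.lt_top⟩
  have : IsFiniteMeasure (volume.restrict M) := ⟨by simpa using hM.lt_top⟩
  unfold phi
  have hint : Integrable (Function.uncurry fun x y : E3 => ‖x - y‖⁻¹)
      ((volume.restrict M).prod (volume.restrict L)) := by
    rw [integrable_prod_iff
      (by fun_prop : Measurable (Function.uncurry fun x y : E3 => ‖x - y‖⁻¹)).aestronglyMeasurable]
    refine ⟨ae_of_all _ fun x => integrableOn_inv_norm hL x, ?_⟩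
    have := integrableOn_phi hL hM
    refine this.congr (ae_of_all _ fun x => ?_)
    unfold phi
    refine integral_congr_ae (ae_of_all _ fun y => ?_)
    simp [Function.uncurry]
  rw [integral_integral_swap hint]
  refine integral_congr_ae (ae_of_all _ fun x => ?_)
  refine integral_congr_ae (ae_of_all _ fun y => ?_)
  simp only [norm_sub_rev]

theorem phi_add_diff {L M : Set E3} (hLM : L ⊆ M) (hLm : MeasurableSet L)
    (hMm : MeasurableSet M) (hM : volume M ≠ ⊤) (x : E3) :
    phi M x = phi L x + phi (M \ L) x := by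
  unfold phi
  have h1 : M = L ∪ (M \ L) := (Set.union_sdiff_cancel hLM).symm
  have hL : volume L ≠ ⊤ := measure_ne_top_of_subset hLM hM
  have hD : volume (M \ L) ≠ ⊤ := measure_ne_top_of_subset sdiff_subset hM
  conv_lhs => rw [h1]
  exact setIntegral_union disjoint_sdiff_right (hMm.diff hLm) (integrableOn_inv_norm hL x)
    (integrableOn_inv_norm hD x)

theorem Bg_le_add {L M : Set E3} (hLM : L ⊆ M) (hLm : MeasurableSet L)
    (hMm : MeasurableSet M) (hM : volume M ≠ ⊤) {S : ℝ} (hS : ∀ x, phi M x ≤ S) :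
    Bg M ≤ Bg L + 2 * volume.real (M \ L) * S := by
  have hL : volume L ≠ ⊤ := measure_ne_top_of_subset hLM hM
  have hD : volume (M \ L) ≠ ⊤ := measure_ne_top_of_subset sdiff_subset hM
  have h1 : M = L ∪ (M \ L) := (Set.union_sdiff_cancel hLM).symm
  have h2 : Bg M = (∫ x in L, phi M x) + ∫ x in M \ L, phi M x := by
    unfold Bg
    conv_lhs => rw [h1]
    rw [setIntegral_union disjoint_sdiff_right (hMm.diff hLm) ?_ ?_]
    · rw [← h1]
    · rw [← h1]; exact integrableOn_phi hM hL
    · rw [← h1]; exact integrableOn_phi hM hD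
  have h3 : (∫ x in L, phi M x) = Bg L + ∫ x in L, phi (M \ L) x := by
    unfold Bg
    rw [← integral_add (integrableOn_phi hL hL) (integrableOn_phi hD hL)]
    exact integral_congr_ae (ae_of_all _ fun x => phi_add_diff hLM hLm hMm hM x)
  have h4 : (∫ x in L, phi (M \ L) x) = ∫ x in M \ L, phi L x := integral_phi_symm hD hL
  have h5 : (∫ x in M \ L, phi L x) ≤ ∫ x in M \ L, phi M x :=
    integral_mono (integrableOn_phi hL hD) (integrableOn_phi hM hD) fun x => by
      simp only
      rw [phi_add_diff hLM hLm hMm hM x]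
      linarith [phi_nonneg (M \ L) x]
  have h6 : (∫ x in M \ L, phi M x) ≤ volume.real (M \ L) * S := by
    calc (∫ x in M \ L, phi M x) ≤ ∫ x in M \ L, S :=
          integral_mono (integrableOn_phi hM hD) (integrableOn_const hD) fun x => hS x
      _ = _ := by rw [setIntegral_const, smul_eq_mul]
  rw [h2, h3, h4]
  linarith

/-- Effect of a small increase of the volume on the energy. -/
theorem energy_le_energy (v : E3 → ℝ) {L M : Set E3} (hLM : L ⊆ M) (hLm : MeasurableSet L)
    (hMm : MeasurableSet M) (hM : volume M ≠ ⊤) {S : ℝ} (hS : ∀ x, phi M x ≤ S)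
    {r1 r2 : ℝ} (h0 : 0 ≤ r2) (h12 : r2 ≤ r1) {N : ℕ} (X : Fin N → E3) :
    energy v r2 M X ≤ energy v r1 L X + N * (r1 - r2) * S
      + r2 ^ 2 * volume.real (M \ L) * S := by
  unfold energy U
  have h1 : ∀ x, phi L x ≤ phi M x := fun x => by
    rw [phi_add_diff hLM hLm hMm hM x]
    linarith [phi_nonneg (M \ L) x]
  have h2 : ∑ i, phi L (X i) ≤ ∑ i, phi M (X i) := Finset.sum_le_sum fun i _ => h1 _
  have h3 : ∑ i, phi L (X i) ≤ N * S := by
    calc ∑ i, phi L (X i) ≤ ∑ _i : Fin N, S := Finset.sum_le_sum fun i _ => (h1 _).trans (hS _)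
      _ = N * S := by simp
  have h4 := Bg_le_add hLM hLm hMm hM hS
  have h5 : r2 * ∑ i, phi L (X i) ≤ r2 * ∑ i, phi M (X i) := mul_le_mul_of_nonneg_left h2 h0
  have h6 : (r1 - r2) * ∑ i, phi L (X i) ≤ (r1 - r2) * (N * S) :=
    mul_le_mul_of_nonneg_left h3 (by linarith)
  have h7 : 1 / 2 * r2 ^ 2 * Bg M ≤ 1 / 2 * r2 ^ 2 * (Bg L + 2 * volume.real (M \ L) * S) :=
    mul_le_mul_of_nonneg_left h4 (by positivity)
  have h8 : 1 / 2 * r2 ^ 2 * Bg L ≤ 1 / 2 * r1 ^ 2 * Bg L := by
    have : r2 ^ 2 ≤ r1 ^ 2 := pow_le_pow_left₀ h0 h12 2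
    have hb := Bg_nonneg L
    nlinarith
  change _ - _ + 1 / 2 * r2 ^ 2 * Bg M + _ ≤ _ - _ + 1 / 2 * r1 ^ 2 * Bg L + _ + _ + _
  nlinarith

end Pool.Agent.R957.Jel
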