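import Pool.Agent.R957.Jel.Add

/-! # Logarithm of the partition function: changes of `N` and of the volume -/

open MeasureTheory Filter Topology Set

noncomputable section

namespace Pool.Agent.R957.Jel

variable {v : E3 → ℝ}

/-- `ln Z` at the neutral density in the ball of volume `V` -/
def W (v : E3 → ℝ) (beta V : ℝ) (k : ℕ) : ℝ :=
  Real.log (I v beta (ballOfVol V) k / k.factorial)

theorem measurableSet_ballOfVol (V : ℝ) : MeasurableSet (ballOfVol V) := measurableSet_ball

theorem volume_ballOfVol_ne_top (V : ℝ) : volume (ballOfVol V) ≠ ⊤ := measure_ball_lt_top.ne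

theorem ballOfVol_mono {V V' : ℝ} (hV : 0 ≤ V) (h : V ≤ V') : ballOfVol V ⊆ ballOfVol V' := by
  unfold ballOfVol
  apply Metric.ball_subset_ball
  apply Real.rpow_le_rpow (by positivity) _ (by norm_num)
  gcongr

theorem stab_of {v : E3 → ℝ} {B : ℝ → ℝ}
    (hB : ∀ rho > 0, ∀ L : Set E3, IsOpen L → IsConnected L → Bornology.IsBounded L →
      ∀ N : ℕ, rho * volume.real L = N → ∀ X : Fin N → E3, (∀ i, X i ∈ L) →
        Function.Injective X → -B rho * N ≤ energy v rho L X)
    {V : ℝ} (hV : 0 < V) {N : ℕ} (hN : 0 < N) {M : ℝ} (hM : |B (N / V)| ≤ M) :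
    Stab v (ballOfVol V) M N := by
  intro X hX hinj
  have hN' : (0 : ℝ) < N := by exact_mod_cast hN
  have hvol : volume.real (ballOfVol V) = V := volume_real_ballOfVol hV.le
  have h := hB (N / V) (by positivity) (ballOfVol V) Metric.isOpen_ball ?_ Metric.isBounded_ball N
    ?_ X hX hinj
  · unfold H
    rw [hvol]
    refine le_trans ?_ h
    have := (abs_le.1 hM).2
    have : -M ≤ -B (N / V) := by linarith
    exact mul_le_mul_of_nonneg_right this hN'.le
  · unfold ballOfVol
    refine ⟨⟨0, Metric.mem_ball_self (by positivity)⟩, ?_⟩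
    exact (convex_ball _ _).isPreconnected
  · rw [hvol]; field_simp

theorem W_step (hev : ∀ x, v (-x) = v x) (hv : Integrable v) {B : ℝ → ℝ}
    (hB : ∀ rho > 0, ∀ L : Set E3, IsOpen L → IsConnected L → Bornology.IsBounded L →
      ∀ N : ℕ, rho * volume.real L = N → ∀ X : Fin N → E3, (∀ i, X i ∈ L) →
        Function.Injective X → -B rho * N ≤ energy v rho L X)
    {a b M : ℝ} (ha : 0 < a) (hab : a ≤ b) (hM : ∀ rho ∈ Icc a b, |B rho| ≤ M)
    {beta : ℝ} (hb : 0 < beta)
    {V : ℝ} (hV : 1 ≤ V) {k : ℕ} (hk1 : a ≤ k / V) (hk2 : ((k : ℝ) + 1) / V ≤ b) :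
    |W v beta V (k + 1) - W v beta V k|
      ≤ beta * (2 * M + (K 1 + 1) / 2 + b * nv v) + |Real.log a| + |Real.log b| := by
  have hV0 : 0 < V := by linarith
  have hk0 : (0 : ℝ) < k := by
    by_contra h
    have : (k : ℝ) = 0 := le_antisymm (not_lt.1 h) (Nat.cast_nonneg _)
    rw [this] at hk1
    simp at hk1
    linarith
  have hkN : 0 < k := by exact_mod_cast hk0
  have hvol : volume.real (ballOfVol V) = V := volume_real_ballOfVol hV0.le
  have hLt := volume_ballOfVol_ne_top V
  have hfin : IsFiniteMeasure (volume.restrict (ballOfVol V)) := ⟨by simpa using hLt.lt_top⟩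
  have hkk : (k : ℝ) / V ≤ ((k : ℝ) + 1) / V := by gcongr; linarith
  have hst1 : Stab v (ballOfVol V) M (k + 1) := by
    refine stab_of hB hV0 (Nat.succ_pos k) (hM _ ⟨?_, ?_⟩)
    · push_cast; linarith
    · push_cast; linarith
  have hst0 : Stab v (ballOfVol V) M k :=
    stab_of hB hV0 hkN (hM _ ⟨hk1, hkk.trans hk2⟩)
  have hM0 : 0 ≤ M := (abs_nonneg _).trans (hM a ⟨le_rfl, hab⟩)
  have hup := I_succ_le hv hev (measurableSet_ballOfVol V) (by rw [hvol]; exact hV0) hb hst1 hst0
  have hlo := I_succ_ge hv hev (measurableSet_ballOfVol V) hLt (by rw [hvol]; exact hV0) hb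
    hst1 hst0
  have hvne : volume (ballOfVol V) ≠ 0 := by
    rw [volume_ballOfVol hV0.le]; simpa using hV0
  have hI0 := I_pos hv (measurableSet_ballOfVol V) hvne hb hst0
  have hI1 := I_pos hv (measurableSet_ballOfVol V) hvne hb hst1
  rw [hvol] at hup hlo
  set I0 := I v beta (ballOfVol V) k
  set I1 := I v beta (ballOfVol V) (k + 1)
  have hfac : (0 : ℝ) < k.factorial := by positivity
  have hfac1 : ((k + 1).factorial : ℝ) = ((k : ℝ) + 1) * k.factorial := by
    rw [Nat.factorial_succ]; push_cast; ring
  have hW1 : W v beta V (k + 1) - W v beta V k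
      = Real.log (I1 / (V * I0)) + Real.log (V / ((k : ℝ) + 1)) := by
    change Real.log (I1 / (k + 1).factorial) - Real.log (I0 / k.factorial) = _
    rw [hfac1, ← Real.log_mul (by positivity) (by positivity), ← Real.log_div (by positivity)
      (by positivity)]
    congr 1
    field_simp
  have hl1 : Real.log (I1 / (V * I0))
      ≤ beta * (2 * M + Bg (ballOfVol V) / (2 * V ^ 2)) := by
    rw [Real.log_le_iff_le_exp (by positivity), div_le_iff₀ (by positivity)]
    exact hup
  have hl2 : -beta * (k * nv v / V) ≤ Real.log (I1 / (V * I0)) := by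
    rw [Real.le_log_iff_exp_le (by positivity), le_div_iff₀ (by positivity)]
    exact hlo
  have hBg : Bg (ballOfVol V) / (2 * V ^ 2) ≤ (K 1 + 1) / 2 := by
    have h1 := integral_phi_le hLt hLt one_pos
    rw [hvol] at h1
    change Bg (ballOfVol V) ≤ _ at h1
    rw [div_le_iff₀ (by positivity)]
    have hK := K_nonneg 1
    have hVV : V ≤ V ^ 2 := by nlinarith
    have : K 1 * V ≤ K 1 * V ^ 2 := mul_le_mul_of_nonneg_left hVV hK
    nlinarith
  have hkn : (k : ℝ) * nv v / V ≤ b * nv v := by
    have hn := nv_nonneg v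
    have : (k : ℝ) * nv v / V = (k / V) * nv v := by ring
    rw [this]
    exact mul_le_mul_of_nonneg_right (hkk.trans hk2) hn
  have hlog1 : Real.log (V / ((k : ℝ) + 1)) ≤ |Real.log a| := by
    have h1 : V / ((k : ℝ) + 1) ≤ a⁻¹ := by
      have : a ≤ ((k : ℝ) + 1) / V := hk1.trans hkk
      rw [le_div_iff₀ hV0] at this
      rw [div_le_iff₀ (by positivity), inv_mul_eq_div, le_div_iff₀ ha]
      linarith
    calc Real.log (V / ((k : ℝ) + 1)) ≤ Real.log a⁻¹ := Real.log_le_log (by positivity) h1
      _ = -Real.log a := Real.log_inv a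
      _ ≤ |Real.log a| := neg_le_abs _
  have hlog2 : -|Real.log b| ≤ Real.log (V / ((k : ℝ) + 1)) := by
    have hb0 : 0 < b := lt_of_lt_of_le ha hab
    have h1 : b⁻¹ ≤ V / ((k : ℝ) + 1) := by
      have := hk2
      rw [div_le_iff₀ hV0] at this
      rw [le_div_iff₀ (by positivity), inv_mul_eq_div, div_le_iff₀ hb0]
      linarith
    calc -|Real.log b| ≤ -Real.log b := neg_le_neg (le_abs_self _)
      _ = Real.log b⁻¹ := (Real.log_inv b).symm
      _ ≤ _ := Real.log_le_log (by positivity) h1
  have hnv := nv_nonneg v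
  have hK := K_nonneg 1
  have hb0 : 0 < b := lt_of_lt_of_le ha hab
  rw [hW1, abs_le]
  have t1 : beta * (2 * M + Bg (ballOfVol V) / (2 * V ^ 2)) ≤ beta * (2 * M + (K 1 + 1) / 2) :=
    mul_le_mul_of_nonneg_left (by linarith) hb.le
  have t2 : beta * (k * nv v / V) ≤ beta * (b * nv v) := mul_le_mul_of_nonneg_left hkn hb.le
  have t3 : 0 ≤ beta * (b * nv v) := by positivity
  have t4 : 0 ≤ beta * (2 * M + (K 1 + 1) / 2) := by positivity
  have t5 := abs_nonneg (Real.log a)
  have t6 := abs_nonneg (Real.log b)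
  constructor
  · nlinarith
  · nlinarith

theorem W_lip (hev : ∀ x, v (-x) = v x) (hv : Integrable v) {B : ℝ → ℝ}
    (hB : ∀ rho > 0, ∀ L : Set E3, IsOpen L → IsConnected L → Bornology.IsBounded L →
      ∀ N : ℕ, rho * volume.real L = N → ∀ X : Fin N → E3, (∀ i, X i ∈ L) →
        Function.Injective X → -B rho * N ≤ energy v rho L X)
    {a b M : ℝ} (ha : 0 < a) (hab : a ≤ b) (hM : ∀ rho ∈ Icc a b, |B rho| ≤ M)
    {beta : ℝ} (hb : 0 < beta)
    {V : ℝ} (hV : 1 ≤ V) {k l : ℕ} (hk1 : a ≤ k / V) (hkl : k ≤ l) (hk2 : (l : ℝ) / V ≤ b) :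
    |W v beta V l - W v beta V k|
      ≤ (beta * (2 * M + (K 1 + 1) / 2 + b * nv v) + |Real.log a| + |Real.log b|)
        * ((l : ℝ) - k) := by
  have hV0 : 0 < V := by linarith
  induction l, hkl using Nat.le_induction with
  | base => simp
  | succ l hkl ih =>
    have h1 : (l : ℝ) / V ≤ b := by
      refine le_trans ?_ hk2
      push_cast; gcongr; linarith
    have h2 : a ≤ (l : ℝ) / V := by
      refine hk1.trans ?_
      have : (k : ℝ) ≤ l := by exact_mod_cast hkl
      gcongr
    have h3 := W_step hev hv hB ha hab hM hb hV (k := l) h2 (by push_cast at hk2; exact hk2)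
    have h4 := ih h1
    have h5 : W v beta V (l + 1) - W v beta V k
        = (W v beta V (l + 1) - W v beta V l) + (W v beta V l - W v beta V k) := by ring
    rw [h5]
    refine (abs_add_le _ _).trans ?_
    push_cast
    linarith

/-- Increase of the volume at fixed number of particles. -/
theorem W_vol (hv : Integrable v) {V V' : ℝ} (hV : 0 < V) (hVV : V ≤ V')
    {M beta : ℝ} (hb : 0 < beta) {k : ℕ} (hst : Stab v (ballOfVol V) M k)
    (hst' : Stab v (ballOfVol V') M k) {S : ℝ} (hS : ∀ x, phi (ballOfVol V') x ≤ S) :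
    W v beta V k - beta * (k * (k / V - k / V') * S + (k / V') ^ 2 * (V' - V) * S)
      ≤ W v beta V' k := by
  have hV' : 0 < V' := by linarith
  have hvol : volume.real (ballOfVol V) = V := volume_real_ballOfVol hV.le
  have hvol' : volume.real (ballOfVol V') = V' := volume_real_ballOfVol hV'.le
  have hLt := volume_ballOfVol_ne_top V
  have hLt' := volume_ballOfVol_ne_top V'
  have hfin : IsFiniteMeasure (volume.restrict (ballOfVol V)) := ⟨by simpa using hLt.lt_top⟩
  have hfin' : IsFiniteMeasure (volume.restrict (ballOfVol V')) := ⟨by simpa using hLt'.lt_top⟩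
  have hvne : volume (ballOfVol V) ≠ 0 := by
    rw [volume_ballOfVol hV.le]; simpa using hV
  have hvne' : volume (ballOfVol V') ≠ 0 := by
    rw [volume_ballOfVol hV'.le]; simpa using hV'
  have hI0 := I_pos hv (measurableSet_ballOfVol V) hvne hb hst
  have hI1 := I_pos hv (measurableSet_ballOfVol V') hvne' hb hst'
  set err := (k : ℝ) * (k / V - k / V') * S + (k / V') ^ 2 * (V' - V) * S with herr
  have hsub := ballOfVol_mono hV.le hVV
  have hdiff : volume.real (ballOfVol V' \ ballOfVol V) = V' - V := by
    rw [measureReal_sdiff hsub (measurableSet_ballOfVol V), hvol, hvol']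
  have hkey : Real.exp (-beta * err) * I v beta (ballOfVol V) k ≤ I v beta (ballOfVol V') k := by
    have hss : {X : Fin k → E3 | ∀ i, X i ∈ ballOfVol V}
        ⊆ {X : Fin k → E3 | ∀ i, X i ∈ ballOfVol V'} := by
      intro X hX
      simp only [Set.mem_ofPred_eq] at hX ⊢
      intro i
      exact hsub (hX i)
    have hle : pim (ballOfVol V) k ≤ pim (ballOfVol V') k := by
      rw [pim_eq, pim_eq]
      exact Measure.restrict_mono hss le_rfl
    have hint' := integrable_exp hv (measurableSet_ballOfVol V') hb hst'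
    have hint := integrable_exp hv (measurableSet_ballOfVol V) hb hst
    calc Real.exp (-beta * err) * I v beta (ballOfVol V) k
        = ∫ X, Real.exp (-beta * err) * Real.exp (-beta * H v (ballOfVol V) X)
            ∂(pim (ballOfVol V) k) := by unfold I; rw [integral_const_mul]
      _ ≤ ∫ X, Real.exp (-beta * H v (ballOfVol V') X) ∂(pim (ballOfVol V) k) := by
          refine integral_mono (hint.const_mul _) (hint'.mono_measure hle) fun X => ?_
          simp only
          rw [← Real.exp_add]
          apply Real.exp_le_exp.2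
          have h1 := energy_le_energy v hsub (measurableSet_ballOfVol V)
            (measurableSet_ballOfVol V') hLt' hS (r1 := k / V) (r2 := k / V') (by positivity)
            (by gcongr) X
          rw [hdiff] at h1
          unfold H
          rw [hvol, hvol']
          have h2 := mul_le_mul_of_nonneg_left h1 hb.le
          rw [herr]
          nlinarith
      _ ≤ ∫ X, Real.exp (-beta * H v (ballOfVol V') X) ∂(pim (ballOfVol V') k) :=
          integral_mono_measure hle (ae_of_all _ fun X => Real.exp_nonneg _) hint'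
  unfold W
  have hfac : (0 : ℝ) < k.factorial := by positivity
  have h3 : Real.log (Real.exp (-beta * err) * I v beta (ballOfVol V) k / k.factorial)
      ≤ Real.log (I v beta (ballOfVol V') k / k.factorial) := by
    apply Real.log_le_log (by positivity)
    gcongr
  have h4 : Real.log (Real.exp (-beta * err) * I v beta (ballOfVol V) k / k.factorial)
      = -beta * err + Real.log (I v beta (ballOfVol V) k / k.factorial) := by
    rw [mul_div_assoc, Real.log_mul (by positivity) (by positivity), Real.log_exp]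
  rw [h4] at h3
  linarith

end Pool.Agent.R957.Jel
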